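import Pool.Agent.MP_199c9e_co.H27.Top

set_option autoImplicit false

universe u

namespace Pool.Agent.Results.MP_199c9e_co.TopMinor

open Pool.Agent.MP_199c9e_co.Top

/-- Over every infinite field, the minimum rank of `G` is at most the order of `G` minus the
minimum degree of any topological minor of `G`. -/
theorem result :
    ∀ (F : Type u) [Field F] [Infinite F] (V S : Type) [Fintype V] [DecidableEq V] [Fintype S]
      (G : SimpleGraph V) (H : SimpleGraph S) [DecidableRel H.Adj], IsTopMinor H G →
      ∃ A : Matrix V V F, A.IsSymm ∧ (∀ i j : V, i ≠ j → (A i j ≠ 0 ↔ G.Adj i j)) ∧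
        A.rank + H.minDegree ≤ Fintype.card V :=
  fun F _ _ _ _ _ _ _ G H _ h => top_bound F H G h

/-- The posed question is the case `H = G`. -/
theorem posed (F : Type u) [Field F] [Infinite F] (V : Type) [Fintype V] [DecidableEq V]
    (G : SimpleGraph V) [DecidableRel G.Adj] :
    ∃ A : Matrix V V F, A.IsSymm ∧ (∀ i j : V, i ≠ j → (A i j ≠ 0 ↔ G.Adj i j)) ∧
      A.rank + G.minDegree ≤ Fintype.card V :=
  result F V V G G ⟨id, fun _ _ h => h.toWalk, Function.injective_id,
    fun _ _ h => by simpa using h.ne, fun _ _ h m k => by simpa using k,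
    fun _ _ _ _ _ _ w _ _ => Or.inl ⟨w, rfl⟩⟩

end Pool.Agent.Results.MP_199c9e_co.TopMinor
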